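import Mathlib
import Pool.Agent.Lib.helper31.RecDefs
import Pool.Agent.Lib.helper31.RecInv

namespace Pool.Agent.Results.MP_3e9a14_an.IPStarInv

open Pool.Agent.Lib.helper31.RecDefs Pool.Agent.Lib.helper31.RecInv TopologicalSpace

lemma mono (A B : Set ℕ) (h : A ⊆ B) (hA : IPStar A) : IPStar B := by
  intro a ha
  obtain ⟨F, h1, h2⟩ := hA a ha
  exact ⟨F, h1, h h2⟩

theorem result {𝕜 X : Type*} [RCLike 𝕜] [AddCommGroup X] [Module 𝕜 X] [TopologicalSpace X]
    [IsTopologicalAddGroup X] [ContinuousSMul 𝕜 X] [IsCompletelyMetrizableSpace X]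
    (T : X ≃L[𝕜] X) (h : IsRecurrentOp IPStar T) : IsRecurrentOp IPStar T.symm := by
  letI := upgradeIsCompletelyMetrizable X
  exact h.mono fun x hx => transfer T.toHomeomorph IPStar mono (fun b hb V hV => IP_back hb V hV) x hx

end Pool.Agent.Results.MP_3e9a14_an.IPStarInv
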