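import Mathlib
import Pool.Agent.Lib.helper31.RecDefs

namespace Pool.Agent.Results.MP_3e9a14_an.ReiterativeInv

open Pool.Agent.Lib.helper31.RecDefs TopologicalSpace Filter Topology

lemma ratio_le (A : Set ℕ) (N m : ℕ) : ((A ∩ Set.Icc (m + 1) (m + N)).ncard : ℝ) / N ≤ 1 := by
  rcases Nat.eq_zero_or_pos N with rfl | hN
  · simp
  · rw [div_le_one (by exact_mod_cast hN)]
    have : (A ∩ Set.Icc (m + 1) (m + N)).ncard ≤ (Set.Icc (m + 1) (m + N)).ncard :=
      Set.ncard_le_ncard Set.inter_subset_right (Set.finite_Icc _ _)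
    rw [Set.ncard_eq_toFinset_card' (Set.Icc (m + 1) (m + N)), Set.toFinset_Icc, Nat.card_Icc] at this
    exact_mod_cast (by omega : (A ∩ Set.Icc (m + 1) (m + N)).ncard ≤ N)

lemma bdd (A : Set ℕ) (N : ℕ) :
    BddAbove (Set.range fun m : ℕ => ((A ∩ Set.Icc (m + 1) (m + N)).ncard : ℝ) / N) :=
  ⟨1, by rintro _ ⟨m, rfl⟩; exact ratio_le A N m⟩

lemma pos_iff (A : Set ℕ) : 0 < upperBanachDensity A ↔ ∃ δ : ℝ, 0 < δ ∧ ∀ N0 : ℕ, ∃ N ≥ N0,
    ∃ m : ℕ, ∃ S : Finset ℕ, (∀ n ∈ S, n ∈ A ∧ m + 1 ≤ n ∧ n ≤ m + N) ∧ δ * N ≤ S.card := by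
  have hle : ∀ N : ℕ, (⨆ m : ℕ, ((A ∩ Set.Icc (m + 1) (m + N)).ncard : ℝ) / N) ≤ 1 :=
    fun N => ciSup_le fun m => ratio_le A N m
  have hge : ∀ N : ℕ, 0 ≤ (⨆ m : ℕ, ((A ∩ Set.Icc (m + 1) (m + N)).ncard : ℝ) / N) :=
    fun N => le_ciSup_of_le (bdd A N) 0 (by positivity)
  constructor
  · intro h
    refine ⟨upperBanachDensity A / 2, by positivity, fun N0 => ?_⟩
    have h1 : ∃ᶠ N : ℕ in atTop, upperBanachDensity A / 2 <
        ⨆ m : ℕ, ((A ∩ Set.Icc (m + 1) (m + N)).ncard : ℝ) / N :=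
      frequently_lt_of_lt_limsup (isCoboundedUnder_le_of_le atTop hge) (by
        show upperBanachDensity A / 2 < upperBanachDensity A
        linarith)
    obtain ⟨N, h2, h3⟩ := (h1.and_eventually (eventually_ge_atTop (N0 + 1))).exists
    obtain ⟨m, hm⟩ := exists_lt_of_lt_ciSup h2
    have hfin : (A ∩ Set.Icc (m + 1) (m + N)).Finite := (Set.finite_Icc _ _).inter_of_right _
    refine ⟨N, by omega, m, hfin.toFinset, fun n hn => ?_, ?_⟩
    · have := hfin.mem_toFinset.1 hn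
      exact ⟨this.1, this.2.1, this.2.2⟩
    · rw [lt_div_iff₀ (by exact_mod_cast (by omega : 0 < N)), Set.ncard_eq_toFinset_card _ hfin] at hm
      exact hm.le
  · rintro ⟨δ, hδ, h⟩
    refine hδ.trans_le (le_limsup_of_frequently_le ?_ (isBoundedUnder_of ⟨1, hle⟩))
    rw [frequently_atTop]
    intro N0
    obtain ⟨N, hN, m, S, hS, hc⟩ := h (N0 + 1)
    refine ⟨N, by omega, le_ciSup_of_le (bdd A N) m ?_⟩
    rw [le_div_iff₀ (by exact_mod_cast (by omega : 0 < N))]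
    refine hc.trans ?_
    have : (S : Set ℕ).ncard ≤ (A ∩ Set.Icc (m + 1) (m + N)).ncard :=
      Set.ncard_le_ncard (fun n hn => ⟨(hS n hn).1, (hS n hn).2⟩)
        ((Set.finite_Icc _ _).inter_of_right _)
    rw [Set.ncard_coe_finset] at this
    exact_mod_cast this

lemma unbounded {A : Set ℕ} (h : 0 < upperBanachDensity A) (M : ℕ) : ∃ n ∈ A, M ≤ n := by
  obtain ⟨δ, hδ, h⟩ := (pos_iff A).1 h
  obtain ⟨N0, hN0⟩ := exists_nat_gt (M / δ)
  obtain ⟨N, hN, m, S, hS, hc⟩ := h N0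
  by_contra hcon
  push Not at hcon
  have h1 : S ⊆ Finset.range M := fun n hn => Finset.mem_range.2 (hcon n (hS n hn).1)
  have h2 : (S.card : ℝ) ≤ M := by
    exact_mod_cast (Finset.card_le_card h1).trans_eq (Finset.card_range M)
  rw [div_lt_iff₀ hδ] at hN0
  have h3 : (N0 : ℝ) ≤ N := by exact_mod_cast hN
  nlinarith

lemma main {X : Type*} [MetricSpace X] [CompleteSpace X] (T : X ≃ₜ X) (x : X)
    (hx : ∀ U ∈ 𝓝 x, 0 < upperBanachDensity (RetSet T x U)) (W : Set X) (hW : IsOpen W)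
    (hxW : x ∈ W) : ∃ y ∈ W, ∀ U ∈ 𝓝 y, 0 < upperBanachDensity (RetSet T.symm y U) := by
  classical
  set K : Set X := closure (Set.range fun n => T^[n] x) with hK
  have hKc : IsClosed K := isClosed_closure
  have : CompleteSpace K := hKc.completeSpace_coe
  have hnb : ∀ (a : ℕ) (V : Set X), IsOpen V → T^[a] x ∈ V → T^[a] ⁻¹' V ∈ 𝓝 x :=
    fun a V hV h => (T.continuous.iterate a).continuousAt.preimage_mem_nhds (hV.mem_nhds h)
  choose δ hδ hwin using fun (a k : ℕ) => (pos_iff _).1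
    (hx _ (hnb a (Metric.ball (T^[a] x) (1 / ((k : ℝ) + 1))) Metric.isOpen_ball
      (Metric.mem_ball_self (by positivity))))
  let G : ℕ × ℕ × ℕ → Set K := fun t => {y | ∃ N ≥ t.2.2, ∃ m : ℕ, ∃ S : Finset ℕ,
    (∀ n ∈ S, m + 1 ≤ n ∧ n ≤ m + N) ∧ δ t.1 t.2.1 * N ≤ S.card ∧
    ∀ n ∈ S, T.symm^[n] y.1 ∈ Metric.ball (T^[t.1] x) (1 / ((t.2.1 : ℝ) + 1))}
  have hGo : ∀ t, IsOpen (G t) := by
    intro t
    rw [isOpen_iff_mem_nhds]
    rintro y ⟨N, hN, m, S, h1, h2, h3⟩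
    have : ∀ᶠ z : K in 𝓝 y, ∀ n ∈ S,
        T.symm^[n] z.1 ∈ Metric.ball (T^[t.1] x) (1 / ((t.2.1 : ℝ) + 1)) := by
      rw [eventually_all_finset]
      intro n hn
      exact ((T.symm.continuous.iterate n).comp continuous_subtype_val).continuousAt.eventually
        (Metric.isOpen_ball.mem_nhds (h3 n hn))
    filter_upwards [this] with z hz
    exact ⟨N, hN, m, S, h1, h2, hz⟩
  have hGd : ∀ t, Dense (G t) := by
    rintro ⟨a, k, N0⟩
    rw [dense_iff_inter_open]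
    rintro O hO ⟨z, hz⟩
    obtain ⟨V, hV, rfl⟩ := isOpen_induced_iff.1 hO
    obtain ⟨_, hc1, c, rfl⟩ := mem_closure_iff.1 z.2 V hV hz
    obtain ⟨N, hN, m, S, hS, hcard⟩ := hwin a k N0
    obtain ⟨e, ⟨-, he⟩, he2⟩ := unbounded (hx _ (hnb c V hV hc1)) (a + m + N + 1)
    have hmem : T^[c + e] x ∈ K := subset_closure ⟨c + e, rfl⟩
    refine ⟨⟨_, hmem⟩, ?_, N, hN, c + e - (a + m + N + 1), S.image (fun i => c + e - (a + i)),
      ?_, ?_, ?_⟩
    · show T^[c + e] x ∈ V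
      rw [Function.iterate_add_apply]
      exact he
    · intro n hn
      obtain ⟨i, hi, rfl⟩ := Finset.mem_image.1 hn
      have := (hS i hi).2
      omega
    · rw [Finset.card_image_of_injOn]
      · exact hcard
      · intro i hi j hj h
        have h1 := (hS i hi).2
        have h2 := (hS j hj).2
        simp only at h
        omega
    · intro n hn
      obtain ⟨i, hi, rfl⟩ := Finset.mem_image.1 hn
      have h1 := (hS i hi).2
      have e1 : T.symm^[c + e - (a + i)] (T^[c + e] x) = T^[a] (T^[i] x) := by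
        have : c + e = (c + e - (a + i)) + (a + i) := by omega
        conv_lhs => enter [3]; rw [this, Function.iterate_add_apply]
        rw [← Function.iterate_add_apply T a i]
        exact (Function.LeftInverse.iterate T.symm_apply_apply _) _
      show T.symm^[c + e - (a + i)] (T^[c + e] x) ∈ _
      rw [e1]
      exact (hS i hi).1.2
  have hd := dense_iInter_of_isOpen hGo hGd
  obtain ⟨y, hy1, hy2⟩ := hd.inter_open_nonempty (Subtype.val ⁻¹' W)
    (hW.preimage continuous_subtype_val) ⟨⟨x, subset_closure ⟨0, rfl⟩⟩, hxW⟩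
  refine ⟨y.1, hy1, fun U hU => ?_⟩
  obtain ⟨ε, hε, hb⟩ := Metric.mem_nhds_iff.1 hU
  obtain ⟨k, hk⟩ := exists_nat_one_div_lt (half_pos hε)
  obtain ⟨_, ⟨a, rfl⟩, ha⟩ := Metric.mem_closure_iff.1 y.2 (ε / 2) (half_pos hε)
  rw [pos_iff]
  refine ⟨δ a k, hδ a k, fun N0 => ?_⟩
  obtain ⟨N, hN, m, S, h1, h2, h3⟩ := Set.mem_iInter.1 hy2 (a, k, N0)
  refine ⟨N, hN, m, S, fun n hn => ⟨⟨by have := h1 n hn; omega, hb ?_⟩, h1 n hn⟩, h2⟩
  have h4 := h3 n hn
  rw [Metric.mem_ball] at h4 ⊢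
  have := dist_triangle (T.symm^[n] y.1) (T^[a] x) y.1
  rw [dist_comm] at ha
  simp only at h4 ha
  linarith

theorem result {𝕜 X : Type*} [RCLike 𝕜] [AddCommGroup X] [Module 𝕜 X] [TopologicalSpace X]
    [IsTopologicalAddGroup X] [ContinuousSMul 𝕜 X] [IsCompletelyMetrizableSpace X]
    (T : X ≃L[𝕜] X) (h : IsRecurrentOp (fun A => 0 < upperBanachDensity A) T) :
    IsRecurrentOp (fun A => 0 < upperBanachDensity A) T.symm := by
  letI := upgradeIsCompletelyMetrizable X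
  unfold IsRecurrentOp at h ⊢
  rw [dense_iff_inter_open] at h ⊢
  intro W hW hne
  obtain ⟨x, hxW, hx⟩ := h W hW hne
  obtain ⟨y, h1, h2⟩ := main T.toHomeomorph x hx W hW hxW
  exact ⟨y, h1, h2⟩

end Pool.Agent.Results.MP_3e9a14_an.ReiterativeInv
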