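import Mathlib
import Pool.Agent.Lib.helper31.RecDefs

namespace Pool.Agent.Results.MP_3e9a14_an.UniformInv

open Pool.Agent.Lib.helper31.RecDefs TopologicalSpace Filter Topology

lemma main {X : Type*} [TopologicalSpace X] [RegularSpace X] (T : X ≃ₜ X) (x : X)
    (hx : ∀ U ∈ 𝓝 x, Syndetic (RetSet T x U)) : ∀ U ∈ 𝓝 x, Syndetic (RetSet T.symm x U) := by
  intro U hU
  obtain ⟨C, hC, hCc, hCU⟩ := exists_mem_nhds_isClosed_subset hU
  obtain ⟨L, hL⟩ := hx C hC
  let K : Set X := ⋃ j ∈ Finset.range (L + 1), T^[j] ⁻¹' C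
  have hK : IsClosed K :=
    isClosed_biUnion_finset fun j _ => hCc.preimage (T.continuous.iterate j)
  have horb : ∀ a, T^[a] x ∈ K := by
    intro a
    obtain ⟨n, ⟨-, hn⟩, h1, h2⟩ := hL a
    simp only [K, Set.mem_iUnion]
    refine ⟨n - a, Finset.mem_range.2 (by omega), ?_⟩
    show T^[n - a] (T^[a] x) ∈ C
    rw [← Function.iterate_add_apply, Nat.sub_add_cancel h1]
    exact hn
  have hinv : ∀ m, T.symm^[m] (T^[m] x) = x := fun m =>
    (Function.LeftInverse.iterate T.symm_apply_apply m) x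
  have hback : ∀ m, T.symm^[m] x ∈ K := by
    intro m
    rw [← hK.closure_eq, mem_closure_iff_nhds]
    intro W hW
    obtain ⟨L', hL'⟩ := hx _ ((T.symm.continuous.iterate m).continuousAt.preimage_mem_nhds hW)
    obtain ⟨n, ⟨-, hn⟩, h1, -⟩ := hL' m
    refine ⟨_, hn, ?_⟩
    have e : T.symm^[m] (T^[n] x) = T^[n - m] x := by
      have : n = m + (n - m) := by omega
      conv_lhs => rw [this, Function.iterate_add_apply]
      exact (Function.LeftInverse.iterate T.symm_apply_apply m) _
    rw [e]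
    exact horb _
  refine ⟨L + 1, fun m => ?_⟩
  have := hback (m + L + 1)
  simp only [K, Set.mem_iUnion] at this
  obtain ⟨j, hj, hj2⟩ := this
  have hj' := Finset.mem_range.1 hj
  refine ⟨m + L + 1 - j, ⟨by omega, hCU ?_⟩, by omega, by omega⟩
  have e : T^[j] (T.symm^[m + L + 1] x) = T.symm^[m + L + 1 - j] x := by
    have : m + L + 1 = j + (m + L + 1 - j) := by omega
    conv_lhs => rw [this, Function.iterate_add_apply]
    exact (Function.LeftInverse.iterate T.apply_symm_apply j) _
  rw [← e]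
  exact hj2

theorem result {𝕜 X : Type*} [RCLike 𝕜] [AddCommGroup X] [Module 𝕜 X] [TopologicalSpace X]
    [IsTopologicalAddGroup X] [ContinuousSMul 𝕜 X] [IsCompletelyMetrizableSpace X]
    (T : X ≃L[𝕜] X) (h : IsRecurrentOp Syndetic T) : IsRecurrentOp Syndetic T.symm := by
  letI := upgradeIsCompletelyMetrizable X
  exact h.mono fun x hx => main T.toHomeomorph x hx

end Pool.Agent.Results.MP_3e9a14_an.UniformInv
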